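import Pool.Agent.W58.GU.Stm

/-!
Project GU, task L6: averages with constant two exist in every block subspace.
-/

set_option autoImplicit false

namespace Pool.Agent.W308.GU

open Finset Pool.Agent.W58.GU

variable {P : Par}

/-- the vector with the coefficients `c` -/
noncomputable def V (v : ℕ → (ℕ →₀ ℝ)) (c : ℕ →₀ ℝ) : ℕ →₀ ℝ := ∑ k ∈ c.support, c k • v k

theorem V_eq (v : ℕ → (ℕ →₀ ℝ)) (c : ℕ →₀ ℝ) {S : Finset ℕ} (h : c.support ⊆ S) :
    V v c = ∑ k ∈ S, c k • v k := by
  unfold V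
  refine sum_subset h fun k _ hk => ?_
  rw [Finsupp.notMem_support_iff] at hk
  rw [hk, zero_smul]

theorem V_smul (v : ℕ → (ℕ →₀ ℝ)) (a : ℝ) (c : ℕ →₀ ℝ) : V v (a • c) = a • V v c := by
  rw [V_eq v (a • c) (S := c.support) Finsupp.support_smul, V, smul_sum]
  refine sum_congr rfl fun k _ => ?_
  rw [Finsupp.smul_apply, smul_eq_mul, mul_smul]

/-- sums of consecutive vectors -/
noncomputable def SS (v : ℕ → (ℕ →₀ ℝ)) (p R : ℕ) : ℕ →₀ ℝ := ∑ k ∈ Ico p (p + R), v k

/-- coefficients of a piece -/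
noncomputable def cf (b : ℝ) (p R : ℕ) : ℕ →₀ ℝ :=
  Finsupp.onFinset (Ico p (p + R)) (fun k => if k ∈ Ico p (p + R) then b else 0) (by
    intro k hk
    by_contra h
    simp [h] at hk)

theorem cf_supp (b : ℝ) (p R : ℕ) : (cf b p R).support ⊆ Ico p (p + R) :=
  Finsupp.support_onFinset_subset

theorem V_cf (v : ℕ → (ℕ →₀ ℝ)) (b : ℝ) (p R : ℕ) : V v (cf b p R) = b • SS v p R := by
  rw [V_eq v _ (cf_supp b p R), SS, smul_sum]
  refine sum_congr rfl fun k hk => ?_
  have : cf b p R k = b := by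
    show (if k ∈ Ico p (p + R) then b else 0) = b
    rw [if_pos hk]
  rw [this]

theorem SS_split (v : ℕ → (ℕ →₀ ℝ)) (p R r : ℕ) :
    SS v p (r * R) = ∑ l ∈ range r, SS v (p + l * R) R := by
  induction r with
  | zero => simp [SS]
  | succ r ih =>
    rw [sum_range_succ, ← ih]
    unfold SS
    rw [Finset.sum_Ico_consecutive _ (by omega) (by omega)]
    congr 2
    ring

theorem rst_pos (A : Set ℕ) (f : ℕ →₀ ℚ) {a : ℕ} (h : a ∈ A) : rst A f a = f a := by
  classical
  simp [rst, h]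

theorem rst_neg (A : Set ℕ) (f : ℕ →₀ ℚ) {a : ℕ} (h : a ∉ A) : rst A f a = 0 := by
  classical
  simp [rst, h]

/-- lower bound -/
theorem lower (v : ℕ → (ℕ →₀ ℝ)) (hv : ∀ k l, k < l → Lt (v k).support (v l).support)
    (h1 : ∀ k, nz P (v k) = 1) (i : ℕ) (hi : i % 2 = 0) (p R : ℕ) (hR : R ≤ P.n i) :
    (R : ℝ) / (2 * P.m i) ≤ nz P (SS v p R) := by
  have hex : ∀ k, ∃ (w : Option ℕ) (f : ℕ →₀ ℚ), KW P w f ∧ f.support ⊆ (v k).support ∧
      (1 / 2 : ℝ) < pr f (v k) := by
    intro k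
    obtain ⟨f, hf, hlt⟩ := lt_nz (P := P) (x := v k) (c := 1 / 2) (by rw [h1 k]; norm_num)
    obtain ⟨w, hw⟩ := hf
    refine ⟨w, rst {a | a ∈ (v k).support} f, hw.rst _, ?_, ?_⟩
    · intro a ha
      by_contra hn
      rw [Finsupp.mem_support_iff] at ha
      apply ha
      exact rst_neg _ f hn
    · have e : pr (rst {a | a ∈ (v k).support} f) (v k) = pr f (v k) := by
        rw [pr_eq' _ (v k) (le_refl _), pr_eq' f (v k) (le_refl _)]
        refine sum_congr rfl fun a ha => ?_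
        have e2 : rst {a | a ∈ (v k).support} f a = f a := rst_pos _ f ha
        rw [e2]
      rw [e]
      exact hlt
  choose w f hf hsup hlt using hex
  have hF : KW P (some i) ((1 / (P.m i : ℚ)) • ∑ k ∈ range R, f (p + k)) :=
    KW.even i R (fun k => f (p + k)) (fun k => w (p + k)) hi hR
      (fun k l hkl _ => (hv (p + k) (p + l) (by omega)).mono (hsup _) (hsup _))
      (fun k _ => hf _)
  refine le_trans ?_ (le_trans (le_abs_self _) (le_nz ⟨_, hF⟩ (SS v p R)))
  rw [pr_smul_left, pr_sum_left]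
  have hk : ∀ k ∈ range R, pr (f (p + k)) (SS v p R) = pr (f (p + k)) (v (p + k)) := by
    intro k hk
    rw [mem_range] at hk
    unfold SS
    rw [pr_fsum]
    refine sum_eq_single (p + k) (fun j _ hj => ?_) (fun h => ?_)
    · refine pr_eq_zero fun a ha => ?_
      by_contra hne
      have h2 := hsup _ ha
      have h3 : a ∈ (v j).support := Finsupp.mem_support_iff.2 hne
      rcases lt_or_gt_of_ne hj with h4 | h4
      · exact lt_irrefl _ (hv _ _ h4 a h3 a h2)
      · exact lt_irrefl _ (hv _ _ h4 a h2 a h3)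
    · exact absurd (mem_Ico.2 ⟨by omega, by omega⟩) h
  rw [sum_congr rfl hk]
  have hs : (R : ℝ) * (1 / 2) ≤ ∑ k ∈ range R, pr (f (p + k)) (v (p + k)) := by
    have := card_nsmul_le_sum (range R) (fun k => pr (f (p + k)) (v (p + k))) (1 / 2 : ℝ)
      (fun k _ => (hlt _).le)
    rwa [card_range, nsmul_eq_mul] at this
  have hm : (0 : ℝ) < P.m i := by exact_mod_cast P.m_pos i
  push_cast
  calc (R : ℝ) / (2 * P.m i) = 1 / P.m i * (R * (1 / 2)) := by field_simp
    _ ≤ _ := mul_le_mul_of_nonneg_left hs (by positivity)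

theorem main : S_L6 := by
  intro P v hv h1 r N0 hr
  by_contra hcon
  have hrR : (0 : ℝ) < r := by exact_mod_cast hr
  -- the key inequality
  have star : ∀ c : ℕ → (ℕ →₀ ℝ), (∀ l, l < r → ∀ k ∈ (c l).support, N0 ≤ k) →
      (∀ l l', l < l' → l' < r → Lt (c l).support (c l').support) →
      (∀ l, l < r → nz P (V v (c l)) ≤ 1) →
      nz P (((1 : ℝ) / r) • ∑ l ∈ range r, V v (c l)) ≤ 1 / 2 := by
    intro c hc1 hc2 hc3
    by_contra hlt
    rw [not_le] at hlt
    set a := nz P (((1 : ℝ) / r) • ∑ l ∈ range r, V v (c l)) with ha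
    have ha0 : 0 < a := by linarith
    apply hcon
    refine ⟨fun l => V v (a⁻¹ • c l), fun l => a⁻¹ • c l, fun l _ => rfl, ?_, ?_, ?_, ?_⟩
    · intro l hl k hk
      exact hc1 l hl k (Finsupp.support_smul hk)
    · intro l l' hll hl'
      exact (hc2 l l' hll hl').mono Finsupp.support_smul Finsupp.support_smul
    · intro l hl
      rw [Bd_iff]
      show nz P (V v (a⁻¹ • c l)) ≤ 2
      rw [V_smul, nz_smul, abs_of_pos (inv_pos.2 ha0)]
      have h2 : a⁻¹ ≤ 2 := by
        rw [inv_le_comm₀ ha0 (by norm_num)]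
        linarith
      calc a⁻¹ * nz P (V v (c l)) ≤ 2 * 1 :=
            mul_le_mul h2 (hc3 l hl) (nz_nonneg _) (by norm_num)
        _ = 2 := by norm_num
    · simp only [V_smul]
      rw [← smul_sum, smul_comm, nz_smul, abs_of_pos (inv_pos.2 ha0), ← ha,
        inv_mul_cancel₀ ha0.ne']
  -- induction
  have ind : ∀ s p : ℕ, N0 ≤ p → nz P (SS v p (r ^ s)) ≤ (r : ℝ) ^ s / 2 ^ s := by
    intro s
    induction s with
    | zero =>
      intro p _
      have : SS v p (r ^ 0) = v p := by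
        unfold SS
        rw [pow_zero, Nat.Ico_succ_singleton, sum_singleton]
      rw [this, h1 p]
      norm_num
    | succ s ih =>
      intro p hp
      set b : ℝ := 2 ^ s / (r : ℝ) ^ s with hb
      have hb0 : 0 < b := by positivity
      have h2 := star (fun l => cf b (p + l * r ^ s) (r ^ s)) ?_ ?_ ?_
      · simp only [V_cf] at h2
        rw [← smul_sum, ← SS_split, nz_smul, nz_smul, abs_of_pos hb0,
          abs_of_pos (by positivity : (0 : ℝ) < 1 / r)] at h2
        have e : r * r ^ s = r ^ (s + 1) := by ring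
        rw [e] at h2
        have h3 : nz P (SS v p (r ^ (s + 1))) =
            (r : ℝ) * b⁻¹ * (1 / r * (b * nz P (SS v p (r ^ (s + 1))))) := by
          field_simp
        rw [h3]
        calc (r : ℝ) * b⁻¹ * (1 / r * (b * nz P (SS v p (r ^ (s + 1)))))
            ≤ (r : ℝ) * b⁻¹ * (1 / 2) := mul_le_mul_of_nonneg_left h2 (by positivity)
          _ = (r : ℝ) ^ (s + 1) / 2 ^ (s + 1) := by
              rw [hb, inv_div, pow_succ, pow_succ]
              field_simp
      · intro l _ k hk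
        have := mem_Ico.1 (cf_supp _ _ _ hk)
        have h4 : 0 ≤ l * r ^ s := Nat.zero_le _
        omega
      · intro l l' hll _ k hk k' hk'
        have h3 := mem_Ico.1 (cf_supp _ _ _ hk)
        have h4 := mem_Ico.1 (cf_supp _ _ _ hk')
        have h5 : (l + 1) * r ^ s ≤ l' * r ^ s := Nat.mul_le_mul_right _ hll
        have h6 : (l + 1) * r ^ s = l * r ^ s + r ^ s := by ring
        omega
      · intro l _
        rw [V_cf, nz_smul, abs_of_pos hb0]
        have h3 := ih (p + l * r ^ s) (by omega)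
        calc b * nz P (SS v (p + l * r ^ s) (r ^ s)) ≤ b * ((r : ℝ) ^ s / 2 ^ s) :=
              mul_le_mul_of_nonneg_left h3 hb0.le
          _ = 1 := by
              rw [hb]
              field_simp
  -- the choice of `i`
  set i := 2 * r + 2 with hi
  obtain ⟨a, ha1, ha2, ha3⟩ := P.hn i
  have har : r ≤ a := by
    refine le_trans ?_ (ha2 (i - 1) (by omega))
    obtain ⟨a', ha1', _, ha3'⟩ := P.hn (i - 1)
    refine le_trans ?_ ha3'
    have h2 := P.hm1 (i - 1)
    have h3 : 1 ≤ (3 * a') ^ (2 * P.m (i - 1) + 1) := Nat.one_le_pow _ _ (by omega)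
    calc r ≤ P.m (i - 1) := by omega
      _ ≤ P.m (i - 1) ^ 2 := Nat.le_self_pow (by norm_num) _
      _ = P.m (i - 1) ^ 2 * 1 := (mul_one _).symm
      _ ≤ _ := Nat.mul_le_mul_left _ h3
  have hle : r ^ (2 * P.m i) ≤ P.n i := by
    refine le_trans ?_ ha3
    have h2 := P.m_pos i
    calc r ^ (2 * P.m i) ≤ (3 * a) ^ (2 * P.m i) := Nat.pow_le_pow_left (by omega) _
      _ ≤ (3 * a) ^ (2 * P.m i + 1) := Nat.pow_le_pow_right (by omega) (by omega)
      _ = 1 * (3 * a) ^ (2 * P.m i + 1) := (one_mul _).symm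
      _ ≤ _ := Nat.mul_le_mul_right _ (Nat.one_le_pow _ _ h2)
  have h2 := lower v hv h1 i (by omega) N0 (r ^ (2 * P.m i)) hle
  have h3 := ind (2 * P.m i) N0 le_rfl
  have h4 := h2.trans h3
  push_cast at h4
  have hm : (0 : ℝ) < P.m i := by exact_mod_cast P.m_pos i
  have hrp : (0 : ℝ) < (r : ℝ) ^ (2 * P.m i) := by positivity
  rw [div_le_div_iff₀ (by positivity) (by positivity)] at h4
  have h5 : (2 : ℝ) ^ (2 * P.m i) ≤ 2 * P.m i := le_of_mul_le_mul_left h4 hrp
  have h6 : 2 ^ (2 * P.m i) ≤ 2 * P.m i := by exact_mod_cast h5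
  have h7 : 2 * P.m i < 2 ^ (2 * P.m i) := Nat.lt_two_pow_self
  omega

end Pool.Agent.W308.GU
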